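import Pool.Agent.Y33.RN.Stm
import Pool.Agent.TH54.BU.ConeA

/-!
# Job RN-RB5: the powers of `t`, `b`, `c` are geodesic in the quotient of the cone metric
(helper171)
-/

set_option autoImplicit false

namespace Pool.Agent.Y171.RN.RB5

open Pool.Agent.TH54.BU Pool.Agent.Y33.SM Pool.Agent.H17R2 Pool.Agent.Y33.RN
open Pool.Agent.H17R2.Words (ln ln_succ mk_single_inj exists_tr)

/-- the line of the powers of the letter `i`, translated by `h` -/
def sl (i : Fin 5) (h : F5) : ℤ → F5 := fun k => h * (FreeGroup.of i : F5) ^ k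

lemma sl_succ (i : Fin 5) (h : F5) (k : ℤ) :
    sl i h (k + 1) = sl i h k * FreeGroup.mk [(i, true)] := by
  unfold sl
  rw [zpow_add, zpow_one, mul_assoc]
  rfl

lemma sl_pred (i : Fin 5) (h : F5) (k : ℤ) :
    sl i h k = sl i h (k + 1) * FreeGroup.mk [(i, false)] := by
  rw [sl_succ]
  have : (FreeGroup.mk [(i, false)] : F5) = (FreeGroup.mk [(i, true)])⁻¹ := by
    rw [FreeGroup.inv_mk]; rfl
  rw [this]; group

lemma sl_line (i : Fin 5) (h : F5) : (fTree (Fin 5)).IsLine (sl i h) := by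
  have h1 : ∀ k, sl i h k = h * zw (fun _ => (i, true)) k := by
    intro k
    unfold sl
    congr 1
    refine zp_uniq (fun _ => (FreeGroup.mk [(i, true)] : F5)) (fun k => (FreeGroup.of i : F5) ^ k)
      (zw (fun _ => (i, true))) ?_ ?_ (by simp) k
    · intro k
      show (FreeGroup.of i : F5) ^ (k + 1) = (FreeGroup.of i : F5) ^ k * _
      rw [zpow_add, zpow_one]
      rfl
    · intro k
      exact zw_succ _ k
  intro a b
  show fd (sl i h a) (sl i h b) = |a - b|
  rw [h1, h1, fd_mul]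
  refine isLine_zw (fun _ : ℤ => (i, true)) ?_ a b
  intro k hk
  have := congrArg Prod.snd hk
  simp [inv2] at this

/-- a relator line has no two consecutive equal letters `t`, `b`, `c` -/
lemma no2 {K : ℤ} {W : Words (Fin 5)} (hW : RW K W) {i : Fin 5} (hi : (i : ℕ) ≤ 2)
    {x : (ℤ → F5) × ℤ} (hx : x ∈ W.toFam.fam) (a : ℤ) (e e' : Bool)
    (h1 : x.1 (a + 1) = x.1 a * FreeGroup.mk [(i, e)])
    (h2 : x.1 (a + 2) = x.1 (a + 1) * FreeGroup.mk [(i, e')]) : False := by
  obtain ⟨b, hb, g, s, ε, rfl⟩ := hx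
  simp only at h1 h2
  rw [ln_succ] at h1
  rw [show a + 2 = a + 1 + 1 by ring, ln_succ b.1 g s ε (a + 1)] at h2
  have h3 := mk_single_inj (mul_left_cancel h1)
  have h4 := mk_single_inj (mul_left_cancel h2)
  cases ε with
  | true =>
    simp only [lab] at h3 h4
    have h5 := hW.iso b hb (s + a) (by rw [h3, add_assoc, h4])
    rw [h3] at h5
    simp only at h5
    omega
  | false =>
    simp only [lab, inv2] at h3 h4
    have h3' : (b.1 (s - a - 1)).1 = i := congrArg Prod.fst h3
    have h4' : (b.1 (s - (a + 1) - 1)).1 = i := congrArg Prod.fst h4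
    have h5 := hW.iso b hb (s - (a + 1) - 1) (by
      rw [h4', show s - (a + 1) - 1 + 1 = s - a - 1 by ring, h3'])
    rw [h4'] at h5
    omega

/-- two consecutive common edges are impossible -/
lemma no2' {K : ℤ} {W : Words (Fin 5)} (hW : RW K W) {i : Fin 5} (hi : (i : ℕ) ≤ 2)
    {x : (ℤ → F5) × ℤ} (hx : x ∈ W.toFam.fam) (h : F5) (a b ε : ℤ) (hε : ε = 1 ∨ ε = -1)
    (hk : ∀ k : ℤ, 0 ≤ k → k ≤ 2 → x.1 (a + k) = sl i h (b + ε * k)) : False := by
  have k0 := hk 0 le_rfl (by norm_num)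
  have k1 := hk 1 (by norm_num) (by norm_num)
  have k2 := hk 2 (by norm_num) le_rfl
  rw [mul_zero, add_zero, add_zero] at k0
  rw [mul_one] at k1
  rcases hε with rfl | rfl
  · refine no2 hW hi hx a true true ?_ ?_
    · rw [k0, k1, sl_succ]
    · rw [k1, k2, show b + 1 * 2 = b + 1 + 1 by ring, sl_succ]
  · refine no2 hW hi hx a false false ?_ ?_
    · rw [k0, k1]
      have := sl_pred i h (b + -1)
      rw [show b + -1 + 1 = b by ring] at this
      exact this
    · rw [k1, k2]
      have := sl_pred i h (b + -1 * 2)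
      rw [show b + -1 * 2 + 1 = b + -1 by ring] at this
      exact this

/-- the projection of a line of a letter to a relator line -/
lemma pr_a {K : ℤ} {W : Words (Fin 5)} (hW : RW K W) {i : Fin 5} (hi : (i : ℕ) ≤ 2)
    {x : (ℤ → F5) × ℤ} (hx : x ∈ W.toFam.fam) (h : F5) (s t : ℤ) :
    |(fTree (Fin 5)).pr x.1 (sl i h s) - (fTree (Fin 5)).pr x.1 (sl i h t)| ≤ 1 := by
  have hφ : (fTree (Fin 5)).IsLine x.1 := W.toFam.line _ hx
  by_contra hcon
  push Not at hcon
  wlog hlt : (fTree (Fin 5)).pr x.1 (sl i h s) < (fTree (Fin 5)).pr x.1 (sl i h t)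
    generalizing s t
  · refine this t s (by rwa [abs_sub_comm]) ?_
    rcases (not_lt.1 hlt).lt_or_eq with h1 | h1
    · exact h1
    · rw [h1] at hcon
      simp at hcon
  obtain ⟨b, ε, hε, hk⟩ := hφ.overlap (sl_line i h) s t hlt
  rw [abs_sub_comm, abs_of_pos (sub_pos.2 hlt)] at hcon
  exact no2' hW hi hx h _ b ε hε (fun k hk0 hk2 => hk k hk0 (by omega))

/-- the projection of a relator line to a line of a letter -/
lemma pr_b {K : ℤ} {W : Words (Fin 5)} (hW : RW K W) {i : Fin 5} (hi : (i : ℕ) ≤ 2)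
    {x : (ℤ → F5) × ℤ} (hx : x ∈ W.toFam.fam) (h : F5) (s t : ℤ) :
    |(fTree (Fin 5)).pr (sl i h) (x.1 s) - (fTree (Fin 5)).pr (sl i h) (x.1 t)| ≤ 1 := by
  have hφ : (fTree (Fin 5)).IsLine x.1 := W.toFam.line _ hx
  by_contra hcon
  push Not at hcon
  wlog hlt : (fTree (Fin 5)).pr (sl i h) (x.1 s) < (fTree (Fin 5)).pr (sl i h) (x.1 t)
    generalizing s t
  · refine this t s (by rwa [abs_sub_comm]) ?_
    rcases (not_lt.1 hlt).lt_or_eq with h1 | h1
    · exact h1
    · rw [h1] at hcon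
      simp at hcon
  obtain ⟨b, ε, hε, hk⟩ := (sl_line i h).overlap hφ s t hlt
  rw [abs_sub_comm, abs_of_pos (sub_pos.2 hlt)] at hcon
  set a := (fTree (Fin 5)).pr (sl i h) (x.1 s) with ha
  rcases hε with rfl | rfl
  · refine no2' hW hi hx h b a 1 (Or.inl rfl) (fun k hk0 hk2 => ?_)
    have := hk k hk0 (by omega)
    rw [one_mul] at this ⊢
    exact this.symm
  · refine no2' hW hi hx h (b - 2) (a + 2) (-1) (Or.inr rfl) (fun k hk0 hk2 => ?_)
    have := hk (2 - k) (by omega) (by omega)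
    rw [show b + -1 * (2 - k) = b - 2 + k by ring] at this
    rw [← this]
    congr 1; ring

/-- the projection to a line of a letter is Lipschitz for the cone metric -/
lemma lipE {K : ℤ} {W : Words (Fin 5)} (hW : RW K W) {E : GH F5} {R : ℕ} (hE : CE W E R)
    {i : Fin 5} (hi : (i : ℕ) ≤ 2) (h : F5) (n : ℕ) : ∀ u v : F5, E.d u v = n →
    |(fTree (Fin 5)).pr (sl i h) u - (fTree (Fin 5)).pr (sl i h) v| ≤ n := by
  induction n with
  | zero =>
    intro u v huv
    rw [E.eq_of_d huv]
    simp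
  | succ n ih =>
    intro u v huv
    obtain ⟨p, hp1, hp2⟩ := E.between u v 1 (by omega)
    have h1 := ih p v (by omega)
    have h2 : |(fTree (Fin 5)).pr (sl i h) u - (fTree (Fin 5)).pr (sl i h) p| ≤ 1 := by
      have h3 := (hE.one (u⁻¹ * p)).1 (by
        have : E.len (u⁻¹ * p) = 1 := hp1
        omega)
      rcases h3 with h3 | ⟨x, hx, a, b, h3⟩
      · have h4 := (sl_line i h).lip u p
        have h5 : (fTree (Fin 5)).d u p ≤ 1 := by
          show fd u p ≤ 1
          unfold fd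
          exact_mod_cast h3
        omega
      · have hy := W.toFam.smul_mem (u * (x.1 a)⁻¹) x hx
        have h4 := pr_b hW hi hy h a b
        have e1 : (u * (x.1 a)⁻¹) • x.1 a = u := by
          show u * (x.1 a)⁻¹ * x.1 a = u
          group
        have e2 : (u * (x.1 a)⁻¹) • x.1 b = p := by
          show u * (x.1 a)⁻¹ * x.1 b = p
          rw [mul_assoc, ← h3]
          group
        simp only [e1, e2] at h4
        exact h4
    have h6 := abs_sub_le ((fTree (Fin 5)).pr (sl i h) u) ((fTree (Fin 5)).pr (sl i h) p)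
      ((fTree (Fin 5)).pr (sl i h) v)
    push_cast
    omega

/-- the powers of a letter are geodesic for the cone metric -/
lemma base {K : ℤ} {W : Words (Fin 5)} (hW : RW K W) {E : GH F5} {R : ℕ} (hE : CE W E R)
    {i : Fin 5} (hi : (i : ℕ) ≤ 2) (k : ℕ) : k ≤ E.len ((FreeGroup.of i : F5) ^ k) := by
  have h1 := lipE hW hE hi 1 _ 1 ((FreeGroup.of i : F5) ^ k) rfl
  have h2 := (sl_line i 1).pr_self 0
  have h3 := (sl_line i 1).pr_self k
  have e2 : sl i 1 0 = 1 := by simp [sl]
  have e3 : sl i 1 (k : ℤ) = (FreeGroup.of i : F5) ^ k := by simp [sl]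
  rw [e2] at h2
  rw [e3] at h3
  rw [h2, h3, E.d_one, zero_sub, abs_neg, abs_of_nonneg (by positivity)] at h1
  exact_mod_cast h1

/-- multiplication with an element of the normal subgroup does not shorten the powers -/
lemma main {K : ℤ} {W : Words (Fin 5)} (hW : RW K W) {E : GH F5} {R : ℕ} (hE : CE W E R)
    {Θ : ℕ} (hJ : JP W E Θ) (hK : (Θ : ℤ) + 20 ≤ K) {i : Fin 5} (hi : (i : ℕ) ≤ 2) (k : ℕ)
    (M : ℕ) : ∀ m ∈ W.toFam.N, FreeGroup.norm m ≤ M →
      k ≤ E.len (m * (FreeGroup.of i : F5) ^ k) := by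
  induction M with
  | zero =>
    intro m _ hm
    have h1 : FreeGroup.norm m = 0 := by omega
    rw [FreeGroup.norm_eq_zero] at h1
    rw [h1, one_mul]
    exact base hW hE hi k
  | succ M ih =>
    intro m hmN hmM
    by_cases hm1 : m = 1
    · rw [hm1, one_mul]
      exact base hW hE hi k
    obtain ⟨⟨⟨φ, L⟩, hx⟩, hwm⟩ := W.toFam.toLines.windmill m hmN hm1
    change (W.K - 6) * L ≤ W.K * |(fTree (Fin 5)).pr φ 1 - (fTree (Fin 5)).pr φ (m * 1)| at hwm
    rw [mul_one, hW.hK] at hwm
    have hL : K ≤ L := by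
      have := W.toFam.KL _ hx
      change W.K ≤ L at this
      rwa [hW.hK] at this
    have hφ : (fTree (Fin 5)).IsLine φ := W.toFam.line _ hx
    set p := (fTree (Fin 5)).pr φ 1 with hp
    set q := (fTree (Fin 5)).pr φ m with hq
    set q' := (fTree (Fin 5)).pr φ (m * (FreeGroup.of i : F5) ^ k) with hq'
    have hqq : |q - q'| ≤ 1 := by
      have h1 := pr_a hW hi hx m 0 k
      have e2 : sl i m 0 = m := by simp [sl]
      have e3 : sl i m (k : ℤ) = m * (FreeGroup.of i : F5) ^ k := by simp [sl]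
      rw [e2, e3] at h1
      exact h1
    have hpq' : (Θ : ℤ) * L ≤ K * |p - q'| := by
      have h1 : |p - q| ≤ |p - q'| + 1 := by
        have := abs_sub_le p q' q
        rw [abs_sub_comm q' q] at this
        omega
      have h2 : K * |p - q| ≤ K * |p - q'| + K := by nlinarith
      nlinarith
    -- the geodesic
    obtain ⟨γ, g0, g1, g2⟩ := E.exists_geod 1 (m * (FreeGroup.of i : F5) ^ k)
    set n := E.d 1 (m * (FreeGroup.of i : F5) ^ k) with hn
    have hlen : E.len (m * (FreeGroup.of i : F5) ^ k) = n := by rw [hn, E.d_one]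
    obtain ⟨j, hj, a, b, ha, hb⟩ := hJ _ hx γ n g2 (by
      rw [g0, g1, hW.hK]
      exact hpq')
    simp only at ha hb
    -- the translation
    obtain ⟨τ, hτ, hτt⟩ := exists_tr W _ hx
    simp only at hτt
    obtain ⟨θ, δ, hδ, hθ, hθt, hsgn⟩ : ∃ (θ : F5) (δ : ℤ), (δ = 1 ∨ δ = -1) ∧ θ ∈ W.toFam.N ∧
        (∀ c, θ * φ c = φ (c + δ * L)) ∧ (0 ≤ δ * (p - q)) := by
      rcases le_total q p with h | h
      · exact ⟨τ, 1, Or.inl rfl, hτ, fun c => by rw [hτt, one_mul], by omega⟩
      · refine ⟨τ⁻¹, -1, Or.inr rfl, inv_mem hτ, fun c => ?_, by omega⟩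
        rw [inv_mul_eq_iff_eq_mul, hτt]
        congr 1; ring
    have hbig : L < 2 * |p - q| := by
      by_contra hcon
      push Not at hcon
      nlinarith [abs_nonneg (p - q)]
    have hneq : p ≠ q := by
      intro h
      rw [h] at hbig
      simp at hbig
      omega
    have hd := hφ.d_eq 1 m hneq
    change fd 1 m = fd 1 (φ p) + |p - q| + fd (φ q) m at hd
    have hshort : fd 1 (θ * m) < fd 1 m := by
      have t1 := fd_tri 1 (φ p) (θ * m)
      have t2 := fd_tri (φ p) (φ (q + δ * L)) (θ * m)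
      have t3 : fd (φ p) (φ (q + δ * L)) = |p - (q + δ * L)| := hφ _ _
      have t4 : fd (φ (q + δ * L)) (θ * m) = fd (φ q) m := by rw [← hθt, fd_mul]
      have t5 : |p - (q + δ * L)| < |p - q| := by
        have hL0 : 0 < L := by omega
        rcases hδ with rfl | rfl
        · have h0 : 0 ≤ p - q := by omega
          rw [abs_of_nonneg h0] at hbig ⊢
          rw [abs_lt]
          constructor <;> omega
        · have h0 : p - q ≤ 0 := by omega
          rw [abs_of_nonpos h0] at hbig ⊢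
          rw [abs_lt]
          constructor <;> omega
      omega
    have hm' : FreeGroup.norm (θ * m) ≤ M := by
      rw [fd_one, fd_one] at hshort
      omega
    have h3 := ih (θ * m) (mul_mem hθ hmN) hm'
    have h4 : E.len (θ * m * (FreeGroup.of i : F5) ^ k) ≤ n := by
      rw [← E.d_one]
      have t1 := E.d_tri 1 (γ j) (θ * m * (FreeGroup.of i : F5) ^ k)
      have t2 := E.d_tri (γ j) (θ * γ (j + 1)) (θ * m * (FreeGroup.of i : F5) ^ k)
      have t3 : E.d 1 (γ j) ≤ j := by
        have := g2.sub (Nat.zero_le j) hj.le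
        rw [g0] at this
        omega
      have t4 : E.d (θ * γ (j + 1)) (θ * m * (FreeGroup.of i : F5) ^ k) = n - (j + 1) := by
        rw [mul_assoc, E.d_mul, ← g1]
        exact g2.sub hj le_rfl
      have t5 : E.d (γ j) (θ * γ (j + 1)) ≤ 1 := by
        have h5 : Jm W ((γ j)⁻¹ * (θ * γ (j + 1))) := by
          refine Or.inr ⟨_, hx, a, b + δ * L, ?_⟩
          rw [ha, hb, hθt]
        exact (hE.one _).2 h5
      omega
    omega

theorem t : S_RB5 := by
  intro Θ
  refine ⟨(Θ : ℤ) + 20, ?_⟩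
  intro K hK W E R Q hW hE hJ hQ i hi k
  apply le_antisymm
  · have h1 := hQ.le ((FreeGroup.of i : F5) ^ k)
    have h2 := hE.le ((FreeGroup.of i : F5) ^ k)
    have h3 : FreeGroup.norm ((FreeGroup.of i : F5) ^ k) ≤ k := by
      induction k with
      | zero => simp
      | succ k ih =>
        rw [pow_succ]
        have h4 := FreeGroup.norm_mul_le ((FreeGroup.of i : F5) ^ k) (FreeGroup.of i)
        have h5 : FreeGroup.norm (FreeGroup.of i : F5) = 1 := FreeGroup.norm_of i
        have h6 := ih (hQ.le _) (hE.le _)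
        omega
    rw [QuotientGroup.mk_pow] at h1
    omega
  · obtain ⟨g, hg, hgl⟩ := hQ.lift (((FreeGroup.of i : F5) : F5 ⧸ W.toFam.N) ^ k)
    rw [← QuotientGroup.mk_pow] at hg hgl
    have h1 : g * ((FreeGroup.of i : F5) ^ k)⁻¹ ∈ W.toFam.N := by
      rw [← QuotientGroup.eq_one_iff, QuotientGroup.mk_mul, QuotientGroup.mk_inv, hg]
      simp
    have h2 := main hW hE hJ hK hi k _ _ h1 le_rfl
    rw [inv_mul_cancel_right, hgl, QuotientGroup.mk_pow] at h2
    exact h2

end Pool.Agent.Y171.RN.RB5
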